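import Pool.Agent.Helper21.FAM.T2a
import Pool.Agent.Helper50.FAM.T1

/-!
# FAM, piece T2: the tower
-/

namespace Pool.Agent.Helper21.FAM

open Polynomial Pool.Agent.Helper16.FAM

universe u

section

variable {k L : Type u} [Field k] [Field L] [Algebra k L] {n : ℕ}

/-- the polynomial in the first variable over the field of fractions. -/
noncomputable def phi (n : ℕ) (L : Type u) [Field L] :
    MvPolynomial (Fin (n + 1)) L →+* (FractionRing (MvPolynomial (Fin n) L))[X] :=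
  (Polynomial.mapRingHom (algebraMap (MvPolynomial (Fin n) L)
    (FractionRing (MvPolynomial (Fin n) L)))).comp (MvPolynomial.finSuccEquiv L n).toRingEquiv.toRingHom

lemma phi_apply (f : MvPolynomial (Fin (n + 1)) L) :
    phi n L f = (MvPolynomial.finSuccEquiv L n f).map (algebraMap (MvPolynomial (Fin n) L)
      (FractionRing (MvPolynomial (Fin n) L))) := rfl

lemma phi_injective : Function.Injective (phi n L) := by
  intro f g hfg
  rw [phi_apply, phi_apply] at hfg
  exact (MvPolynomial.finSuccEquiv L n).injective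
    (Polynomial.map_injective _ (IsFractionRing.injective _ _) hfg)

lemma phi_smul (k' : IntermediateField k (FractionRing (MvPolynomial (Fin n) L))) (c : k)
    (f : MvPolynomial (Fin (n + 1)) L) :
    phi n L (c • f) = (algebraMap k k' c) • phi n L f := by
  have h1 : c • f = MvPolynomial.C (algebraMap k L c) * f := by
    rw [← MvPolynomial.smul_eq_C_mul, algebraMap_smul]
  have h2 : phi n L (MvPolynomial.C (algebraMap k L c)) =
      Polynomial.C (algebraMap k (FractionRing (MvPolynomial (Fin n) L)) c) := by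
    rw [phi_apply, MvPolynomial.finSuccEquiv_apply, MvPolynomial.eval₂Hom_C]
    simp only [RingHom.comp_apply, Polynomial.map_C]
    rw [IsScalarTower.algebraMap_apply k (MvPolynomial (Fin n) L)
      (FractionRing (MvPolynomial (Fin n) L)) c]
    rfl
  rw [h1, map_mul, h2]
  ext i
  rw [coeff_C_mul, coeff_smul]
  rfl

lemma phi_mem_span (k' : IntermediateField k (FractionRing (MvPolynomial (Fin n) L)))
    (S : Set (MvPolynomial (Fin (n + 1)) L)) {g : MvPolynomial (Fin (n + 1)) L}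
    (hg : g ∈ Submodule.span k S) : phi n L g ∈ Submodule.span k' (phi n L '' S) := by
  induction hg using Submodule.span_induction with
  | mem x hx => exact Submodule.subset_span ⟨x, hx, rfl⟩
  | zero => rw [map_zero]; exact Submodule.zero_mem _
  | add x y _ _ hx hy => rw [map_add]; exact Submodule.add_mem _ hx hy
  | smul c x _ hx => rw [phi_smul k']; exact Submodule.smul_mem _ _ hx

lemma degreeOf_bound (S : Finset (MvPolynomial (Fin (n + 1)) L)) {g : MvPolynomial (Fin (n + 1)) L}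
    (hg : g ∈ Submodule.span k (S : Set (MvPolynomial (Fin (n + 1)) L))) :
    g.degreeOf 0 ≤ S.sup fun f => f.degreeOf 0 := by
  induction hg using Submodule.span_induction with
  | mem x hx => exact Finset.le_sup (f := fun f => MvPolynomial.degreeOf 0 f) hx
  | zero => simp
  | add x y _ _ hx hy => exact (MvPolynomial.degreeOf_add_le _ _ _).trans (max_le hx hy)
  | smul c x _ hx =>
    rw [← algebraMap_smul L c x, MvPolynomial.smul_eq_C_mul]
    exact (MvPolynomial.degreeOf_C_mul_le _ _ _).trans hx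

lemma phi_eval_C (c : L) (f : MvPolynomial (Fin (n + 1)) L) :
    (phi n L f).eval (algebraMap L (FractionRing (MvPolynomial (Fin n) L)) c) =
      algebraMap (MvPolynomial (Fin n) L) (FractionRing (MvPolynomial (Fin n) L)) (pev c f) := by
  rw [phi_apply, pev, IsScalarTower.algebraMap_apply L (MvPolynomial (Fin n) L)
      (FractionRing (MvPolynomial (Fin n) L)) c, Polynomial.eval_map, Polynomial.eval₂_at_apply]
  rfl

lemma psi_phi {D : ℕ} (a b : MvPolynomial (Fin n) L) (hb : b ≠ 0)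
    (f : MvPolynomial (Fin (n + 1)) L) (hD : f.degreeOf 0 ≤ D) :
    algebraMap (MvPolynomial (Fin n) L) (FractionRing (MvPolynomial (Fin n) L))
        (psi n L D a b f) =
      algebraMap (MvPolynomial (Fin n) L) (FractionRing (MvPolynomial (Fin n) L)) b ^ D *
        (phi n L f).eval (algebraMap (MvPolynomial (Fin n) L)
          (FractionRing (MvPolynomial (Fin n) L)) a / algebraMap (MvPolynomial (Fin n) L)
          (FractionRing (MvPolynomial (Fin n) L)) b) := by
  rw [psi_apply, phi_apply]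
  refine hom_eval _ _ ?_ a b ?_
  · rw [MvPolynomial.natDegree_finSuccEquiv]; exact hD
  · intro h
    exact hb (IsFractionRing.injective (MvPolynomial (Fin n) L)
      (FractionRing (MvPolynomial (Fin n) L)) (by rw [h, map_zero]))

lemma psi_eval {D : ℕ} (a b : MvPolynomial (Fin n) L) (ξ : Fin n → L)
    (hb : MvPolynomial.eval ξ b ≠ 0)
    (f : MvPolynomial (Fin (n + 1)) L) (hD : f.degreeOf 0 ≤ D) :
    MvPolynomial.eval ξ (psi n L D a b f) = MvPolynomial.eval ξ b ^ D *
      MvPolynomial.eval (Fin.cons (MvPolynomial.eval ξ a / MvPolynomial.eval ξ b) ξ) f := by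
  rw [psi_apply, MvPolynomial.eval_eq_eval_mv_eval']
  exact hom_eval (MvPolynomial.eval ξ) _ (by rw [MvPolynomial.natDegree_finSuccEquiv]; exact hD)
    a b hb

lemma eval_const {f : MvPolynomial (Fin (n + 1)) L} (h : f.degreeOf 0 = 0) (c d : L)
    (ξ : Fin n → L) : MvPolynomial.eval (Fin.cons d ξ) f = MvPolynomial.eval ξ (pev c f) := by
  rw [MvPolynomial.eval_eq_eval_mv_eval', pev, fse_const h]
  simp

end

/-- the statement of P7. -/
def Fibre : Prop := ∀ {k L : Type u} [Field k] [CharZero k] [Field L] [Algebra k L] {t : L}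
    (_ : IsFF k L t) (q : L[X]) (_ : q ≠ 0) (_ : q.natDegree ≤ 4),
    ∃ p : ℤ[X], q.eval (aeval t p) ≠ 0 ∧ ∀ L₀ : Subfield L, t ∈ L₀ → (∀ i, q.coeff i ∈ L₀) →
      ∀ W : Submodule k L[X], W.FG → ∃ x ρ : L, x ∈ L₀ ∧ ρ ∈ L₀ ∧
        q.eval x = ρ ^ 2 * q.eval (aeval t p) ∧ ∀ g ∈ W, g ≠ 0 → g.eval x ≠ 0

lemma aeval_alg {L K : Type*} [Field L] [Field K] [Algebra L K] (t : L) (p : ℤ[X]) :
    aeval (algebraMap L K t) p = algebraMap L K (aeval t p) := by
  rw [aeval_algebraMap_apply]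

lemma aeval_mem {L : Type*} [Field L] (L₀ : Subfield L) {t : L} (ht : t ∈ L₀) (p : ℤ[X]) :
    aeval t p ∈ L₀ := by
  rw [aeval_eq_sum_range]
  refine sum_mem fun i _ => ?_
  rw [zsmul_eq_mul]
  exact mul_mem (intCast_mem L₀ _) (pow_mem ht _)

lemma key_aux {A K : Type*} [CommRing A] [Field K] (θ : A →+* K) (b e p : A) (hb : θ b ≠ 0) :
    θ b ^ 4 * ((θ e / θ b) ^ 2 * θ p) = θ (b ^ 2 * e ^ 2 * p) := by
  rw [map_mul, map_mul, map_pow, map_pow]
  field_simp

lemma key_aux2 {L : Type*} [Field L] {x b e p : L} (hb : b ≠ 0)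
    (h : b ^ 2 * e ^ 2 * p = b ^ 4 * x) : x = (e / b) ^ 2 * p := by
  have h2 : b ^ 4 ≠ 0 := pow_ne_zero _ hb
  apply mul_left_cancel₀ h2
  rw [← h]
  field_simp

/-- the step. -/
lemma tower_step (fibre : Fibre.{u}) {k L : Type u} [Field k] [CharZero k] [Field L] [Algebra k L]
    {t : L} (h : IsFF k L t) {s n : ℕ}
    (ih : ∀ (F : Fin s → MvPolynomial (Fin n) L)
      (_ : ∀ j i, (F j).degreeOf i ≤ 4)
      (_ : ∀ i j j', (F j).degreeOf i ≠ 0 → (F j').degreeOf i ≠ 0 → j = j'),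
      ∃ p : Fin n → ℤ[X],
        (∀ j, F j ≠ 0 → MvPolynomial.eval (fun i => aeval t (p i)) (F j) ≠ 0) ∧
        ∀ L₀ : Subfield L, t ∈ L₀ → (∀ j m, (F j).coeff m ∈ L₀) →
        ∀ W : Submodule k (MvPolynomial (Fin n) L), W.FG →
          ∃ (ξ : Fin n → L) (ρ : Fin s → L), (∀ i, ξ i ∈ L₀) ∧ (∀ j, ρ j ∈ L₀) ∧
            (∀ j, MvPolynomial.eval ξ (F j) =
              ρ j ^ 2 * MvPolynomial.eval (fun i => aeval t (p i)) (F j)) ∧
            ∀ g ∈ W, g ≠ 0 → MvPolynomial.eval ξ g ≠ 0)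
    (F : Fin s → MvPolynomial (Fin (n + 1)) L)
    (hdeg : ∀ j i, (F j).degreeOf i ≤ 4)
    (hdis : ∀ i j j', (F j).degreeOf i ≠ 0 → (F j').degreeOf i ≠ 0 → j = j') :
    ∃ p : Fin (n + 1) → ℤ[X],
      (∀ j, F j ≠ 0 → MvPolynomial.eval (fun i => aeval t (p i)) (F j) ≠ 0) ∧
      ∀ L₀ : Subfield L, t ∈ L₀ → (∀ j m, (F j).coeff m ∈ L₀) →
      ∀ W : Submodule k (MvPolynomial (Fin (n + 1)) L), W.FG →
        ∃ (ξ : Fin (n + 1) → L) (ρ : Fin s → L), (∀ i, ξ i ∈ L₀) ∧ (∀ j, ρ j ∈ L₀) ∧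
          (∀ j, MvPolynomial.eval ξ (F j) =
            ρ j ^ 2 * MvPolynomial.eval (fun i => aeval t (p i)) (F j)) ∧
          ∀ g ∈ W, g ≠ 0 → MvPolynomial.eval ξ g ≠ 0 := by
  -- the polynomial involving the first variable
  obtain ⟨G, hG0, hG4, hGF, hGc⟩ : ∃ G : MvPolynomial (Fin (n + 1)) L, G ≠ 0 ∧
      G.degreeOf 0 ≤ 4 ∧ (∀ j, (F j).degreeOf 0 ≠ 0 → F j = G) ∧
      ∀ L₀ : Subfield L, (∀ j m, (F j).coeff m ∈ L₀) → ∀ m, G.coeff m ∈ L₀ := by
    by_cases hj : ∃ j, (F j).degreeOf 0 ≠ 0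
    · obtain ⟨j₀, hj₀⟩ := hj
      refine ⟨F j₀, ?_, hdeg j₀ 0, ?_, fun L₀ hL => hL j₀⟩
      · intro h0
        rw [h0] at hj₀
        exact hj₀ (MvPolynomial.degreeOf_zero _)
      · intro j hj
        rw [hdis 0 j j₀ hj hj₀]
    · push Not at hj
      refine ⟨1, one_ne_zero, ?_, fun j h1 => absurd (hj j) h1, ?_⟩
      · rw [← MvPolynomial.C_1, MvPolynomial.degreeOf_C]; omega
      · intro L₀ _ m
        rw [MvPolynomial.coeff_one]
        split_ifs
        · exact one_mem _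
        · exact zero_mem _
  set K := FractionRing (MvPolynomial (Fin n) L) with hK
  set k' := IntermediateField.adjoin k (Set.range fun i : Fin n =>
        algebraMap (MvPolynomial (Fin n) L) K (MvPolynomial.X i)) with hk'
  have hFF : IsFF k' K (algebraMap L K t) := Pool.Agent.Helper50.FAM.isFF_frac h n
  have hθ : Function.Injective (algebraMap (MvPolynomial (Fin n) L) K) :=
    IsFractionRing.injective _ _
  have hq0 : phi n L G ≠ 0 := by
    intro h0
    exact hG0 (phi_injective (by rw [h0, map_zero]))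
  have hq4 : (phi n L G).natDegree ≤ 4 := by
    rw [phi_apply]
    refine natDegree_map_le.trans ?_
    rw [MvPolynomial.natDegree_finSuccEquiv]
    exact hG4
  obtain ⟨p₀, hp₀, hfib⟩ := fibre hFF (phi n L G) hq0 hq4
  set c₀ : L := aeval t p₀ with hc₀
  rw [aeval_alg, phi_eval_C] at hp₀
  rw [aeval_alg, phi_eval_C, ← hc₀] at hfib
  have hpG : pev c₀ G ≠ 0 := by
    intro h0
    rw [← hc₀, h0, map_zero] at hp₀
    exact hp₀ rfl
  have hF'0 : ∀ j, F j ≠ 0 → pev c₀ (F j) ≠ 0 := by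
    intro j hj
    by_cases h0 : (F j).degreeOf 0 = 0
    · intro h1
      apply hj
      apply (MvPolynomial.finSuccEquiv L n).injective
      rw [map_zero, fse_const h0]
      rw [pev, fse_const h0, Polynomial.eval_C] at h1
      rw [h1, Polynomial.C_0]
    · rw [hGF j h0]; exact hpG
  obtain ⟨p', hp', hrest⟩ := ih (fun j => pev c₀ (F j))
    (fun j i => (degreeOf_pev c₀ (F j) i).trans (hdeg j i.succ))
    (fun i j j' h1 h2 => hdis i.succ j j'
      (fun h3 => h1 (Nat.le_zero.1 (h3 ▸ degreeOf_pev c₀ (F j) i)))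
      (fun h3 => h2 (Nat.le_zero.1 (h3 ▸ degreeOf_pev c₀ (F j') i))))
  have ecc : (fun i => aeval t ((Fin.cons p₀ p' : Fin (n + 1) → ℤ[X]) i)) =
      (Fin.cons c₀ (fun i => aeval t (p' i)) : Fin (n + 1) → L) := by
    funext i
    refine Fin.cases ?_ (fun i => ?_) i
    · rfl
    · rfl
  refine ⟨Fin.cons p₀ p', ?_, ?_⟩
  · intro j hj
    rw [ecc, ← eval_pev]
    exact hp' j (hF'0 j hj)
  intro L₀ ht hF W hW
  rw [ecc]
  obtain ⟨L₁, hL1, hL2⟩ := exists_subfield L₀ n
  obtain ⟨S, hS⟩ := hW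
  have hc₀m : c₀ ∈ L₀ := aeval_mem L₀ ht p₀
  obtain ⟨x, r, hx, hr, hxr, hW''⟩ := hfib L₁ (hL1 (MvPolynomial.C t) (C_mem ht))
    (by
      intro i
      rw [phi_apply, coeff_map]
      exact hL1 _ (fse_mem (hGc L₀ hF) i))
    (Submodule.span k' (phi n L '' (S : Set (MvPolynomial (Fin (n + 1)) L))))
    (Submodule.fg_span ((Finset.finite_toSet S).image _))
  obtain ⟨a₁, ha₁, b₁, hb₁, hb₁0, rfl⟩ := hL2 x hx
  obtain ⟨a₂, ha₂, b₂, hb₂, hb₂0, rfl⟩ := hL2 r hr
  set b := b₁ * b₂ with hb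
  have hb0 : b ≠ 0 := mul_ne_zero hb₁0 hb₂0
  set a := a₁ * b₂ with ha
  set e := a₂ * b₁ with he
  have hθb₁ : algebraMap (MvPolynomial (Fin n) L) K b₁ ≠ 0 := by
    rw [Ne, ← map_zero (algebraMap (MvPolynomial (Fin n) L) K)]
    exact fun h1 => hb₁0 (hθ h1)
  have hθb₂ : algebraMap (MvPolynomial (Fin n) L) K b₂ ≠ 0 := by
    rw [Ne, ← map_zero (algebraMap (MvPolynomial (Fin n) L) K)]
    exact fun h1 => hb₂0 (hθ h1)
  have hθb : algebraMap (MvPolynomial (Fin n) L) K b ≠ 0 := by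
    rw [hb, map_mul]; exact mul_ne_zero hθb₁ hθb₂
  have hxa : algebraMap (MvPolynomial (Fin n) L) K a₁ / algebraMap (MvPolynomial (Fin n) L) K b₁ =
      algebraMap (MvPolynomial (Fin n) L) K a / algebraMap (MvPolynomial (Fin n) L) K b := by
    rw [ha, hb, map_mul, map_mul]
    rw [mul_div_mul_right _ _ hθb₂]
  have hra : algebraMap (MvPolynomial (Fin n) L) K a₂ / algebraMap (MvPolynomial (Fin n) L) K b₂ =
      algebraMap (MvPolynomial (Fin n) L) K e / algebraMap (MvPolynomial (Fin n) L) K b := by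
    rw [he, hb, map_mul, map_mul, mul_comm (algebraMap (MvPolynomial (Fin n) L) K b₁)]
    rw [mul_div_mul_right _ _ hθb₁]
  rw [hxa] at hxr hW''
  rw [hra] at hxr
  set D := S.sup fun f => f.degreeOf 0 with hD
  -- the conditions on the remaining variables
  obtain ⟨ξ, ρ, hξ, hρ, hFρ, hWξ⟩ := hrest L₀ ht
    (fun j => mem_S0.1 (pev_mem (hF j) hc₀m))
    (W.map ((psi n L D a b).restrictScalars k) ⊔ Submodule.span k {b})
    (Submodule.FG.sup (Submodule.FG.map _ ⟨S, hS⟩) (Submodule.fg_span_singleton _))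
  have hbξ : MvPolynomial.eval ξ b ≠ 0 :=
    hWξ b (Submodule.mem_sup_right (Submodule.mem_span_singleton_self b)) hb0
  set ξ₀ : L := MvPolynomial.eval ξ a / MvPolynomial.eval ξ b with hξ₀
  have haS : a ∈ S0 L₀ n := mul_mem ha₁ hb₂
  have hbS : b ∈ S0 L₀ n := mul_mem hb₁ hb₂
  have heS : e ∈ S0 L₀ n := mul_mem ha₂ hb₁
  -- the key identity
  have key : psi n L 4 a b G = b ^ 2 * e ^ 2 * pev c₀ G := by
    apply hθ
    rw [psi_phi a b hb0 G hG4, hxr]
    exact key_aux _ _ _ _ hθb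
  have key2 : MvPolynomial.eval (Fin.cons ξ₀ ξ) G =
      (MvPolynomial.eval ξ e / MvPolynomial.eval ξ b) ^ 2 * MvPolynomial.eval ξ (pev c₀ G) := by
    have h1 := psi_eval a b ξ hbξ G hG4
    rw [key, MvPolynomial.eval_mul, MvPolynomial.eval_mul, MvPolynomial.eval_pow,
      MvPolynomial.eval_pow] at h1
    exact key_aux2 hbξ h1
  refine ⟨Fin.cons ξ₀ ξ, fun j => if (F j).degreeOf 0 = 0 then ρ j else
    (MvPolynomial.eval ξ e / MvPolynomial.eval ξ b) * ρ j, ?_, ?_, ?_, ?_⟩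
  · intro i
    refine Fin.cases ?_ (fun i => ?_) i
    · exact div_mem (eval_mem haS hξ) (eval_mem hbS hξ)
    · exact hξ i
  · intro j
    dsimp only
    split_ifs
    · exact hρ j
    · exact mul_mem (div_mem (eval_mem heS hξ) (eval_mem hbS hξ)) (hρ j)
  · intro j
    dsimp only
    rw [← eval_pev c₀]
    split_ifs with h0
    · rw [eval_const h0 c₀, hFρ j]
    · have h5 := hFρ j
      rw [hGF j h0] at h5 ⊢
      rw [key2, mul_pow, mul_assoc, ← h5]
  · intro g hg hg0
    have hgS : g ∈ Submodule.span k (S : Set (MvPolynomial (Fin (n + 1)) L)) := by rw [hS]; exact hg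
    have hgD : g.degreeOf 0 ≤ D := degreeOf_bound S hgS
    have h1 : (phi n L g).eval (algebraMap (MvPolynomial (Fin n) L) K a /
        algebraMap (MvPolynomial (Fin n) L) K b) ≠ 0 :=
      hW'' (phi n L g) (phi_mem_span k' _ hgS)
        (fun h2 => hg0 (phi_injective (by rw [h2, map_zero])))
    have h3 : psi n L D a b g ≠ 0 := by
      intro h4
      have h5 := psi_phi a b hb0 g hgD
      rw [h4, map_zero] at h5
      exact mul_ne_zero (pow_ne_zero _ hθb) h1 h5.symm
    have h6 : MvPolynomial.eval ξ (psi n L D a b g) ≠ 0 :=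
      hWξ _ (Submodule.mem_sup_left ⟨g, hg, rfl⟩) h3
    rw [psi_eval a b ξ hbξ g hgD] at h6
    exact right_ne_zero_of_mul h6

/-- T2: the tower, from P7. -/
theorem tower_of (fibre : Fibre.{u}) {k L : Type u} [Field k] [CharZero k] [Field L] [Algebra k L]
    {t : L} (h : IsFF k L t) {s n : ℕ} (F : Fin s → MvPolynomial (Fin n) L)
    (hdeg : ∀ j i, (F j).degreeOf i ≤ 4)
    (hdis : ∀ i j j', (F j).degreeOf i ≠ 0 → (F j').degreeOf i ≠ 0 → j = j') :
    ∃ p : Fin n → ℤ[X],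
      (∀ j, F j ≠ 0 → MvPolynomial.eval (fun i => aeval t (p i)) (F j) ≠ 0) ∧
      ∀ L₀ : Subfield L, t ∈ L₀ → (∀ j m, (F j).coeff m ∈ L₀) →
      ∀ W : Submodule k (MvPolynomial (Fin n) L), W.FG →
        ∃ (ξ : Fin n → L) (ρ : Fin s → L), (∀ i, ξ i ∈ L₀) ∧ (∀ j, ρ j ∈ L₀) ∧
          (∀ j, MvPolynomial.eval ξ (F j) =
            ρ j ^ 2 * MvPolynomial.eval (fun i => aeval t (p i)) (F j)) ∧
          ∀ g ∈ W, g ≠ 0 → MvPolynomial.eval ξ g ≠ 0 := by
  induction n with
  | zero =>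
    have e : ∀ (ξ : Fin 0 → L) (f : MvPolynomial (Fin 0) L),
        f = MvPolynomial.C (MvPolynomial.eval ξ f) := by
      intro ξ f
      rw [MvPolynomial.eq_C_of_isEmpty f, MvPolynomial.eval_C]
    refine ⟨Fin.elim0, ?_, ?_⟩
    · intro j hj h0
      apply hj
      rw [e _ (F j), h0, MvPolynomial.C_0]
    · intro L₀ ht hF W hW
      refine ⟨Fin.elim0, fun _ => 1, fun i => i.elim0, fun _ => one_mem _, ?_, ?_⟩
      · intro j
        rw [one_pow, one_mul]
        congr 2
        exact Subsingleton.elim _ _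
      · intro g hg hg0 h0
        apply hg0
        rw [e _ g, h0, MvPolynomial.C_0]
  | succ n ih =>
    exact tower_step fibre h (fun F hdeg hdis => ih F hdeg hdis) F hdeg hdis

end Pool.Agent.Helper21.FAM

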