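import Mathlib
import Pool.Agent.Helper16.FAM.Defs

/-!
# The tower, preliminaries
-/

namespace Pool.Agent.Helper21.FAM

open Polynomial

universe u

variable {L : Type u} [Field L] {n : ℕ}

/-- polynomials with coefficients in `L₀`. -/
noncomputable def S0 (L₀ : Subfield L) (n : ℕ) : Subring (MvPolynomial (Fin n) L) :=
  (MvPolynomial.map (σ := Fin n) L₀.subtype).range

lemma mem_S0 {L₀ : Subfield L} {f : MvPolynomial (Fin n) L} :
    f ∈ S0 L₀ n ↔ ∀ m, f.coeff m ∈ L₀ := by
  constructor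
  · rintro ⟨g, rfl⟩ m
    rw [MvPolynomial.coeff_map]
    exact (g.coeff m).2
  · intro h
    have h1 := (MvPolynomial.mem_range_map_iff_coeffs_subset (f := L₀.subtype) (x := f)).2 (by
      intro c hc
      obtain ⟨m, -, rfl⟩ := MvPolynomial.mem_coeffs_iff.1 hc
      exact ⟨⟨_, h m⟩, rfl⟩)
    exact h1

lemma eval_mem {L₀ : Subfield L} {f : MvPolynomial (Fin n) L} (hf : f ∈ S0 L₀ n) {ξ : Fin n → L}
    (hξ : ∀ i, ξ i ∈ L₀) : MvPolynomial.eval ξ f ∈ L₀ := by
  rw [MvPolynomial.eval_eq]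
  exact sum_mem fun m _ => mul_mem (mem_S0.1 hf m) (prod_mem fun i _ => pow_mem (hξ i) _)

lemma C_mem {L₀ : Subfield L} {c : L} (hc : c ∈ L₀) : MvPolynomial.C c ∈ S0 L₀ n :=
  ⟨MvPolynomial.C ⟨c, hc⟩, by simp⟩

/-- clearing denominators. -/
lemma hom_eval {A M : Type*} [CommRing A] [Field M] (θ : A →+* M) (P : A[X]) {D : ℕ}
    (hD : P.natDegree ≤ D) (a b : A) (hb : θ b ≠ 0) :
    θ (∑ i ∈ Finset.range (D + 1), P.coeff i * (a ^ i * b ^ (D - i)))
      = θ b ^ D * (P.map θ).eval (θ a / θ b) := by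
  have h1 : (P.map θ).natDegree < D + 1 := lt_of_le_of_lt natDegree_map_le (by omega)
  rw [map_sum, eval_eq_sum_range' h1, Finset.mul_sum]
  refine Finset.sum_congr rfl fun i hi => ?_
  have hi' : i ≤ D := by have := Finset.mem_range.1 hi; omega
  rw [map_mul, map_mul, map_pow, map_pow, coeff_map, div_pow]
  have h2 : θ b ^ D = θ b ^ (D - i) * θ b ^ i := by rw [← pow_add, Nat.sub_add_cancel hi']
  rw [h2]
  field_simp

/-- homogenised evaluation of the first variable at `a / b`. -/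
noncomputable def psi (n : ℕ) (L : Type u) [Field L] (D : ℕ) (a b : MvPolynomial (Fin n) L) :
    MvPolynomial (Fin (n + 1)) L →ₗ[L] MvPolynomial (Fin n) L where
  toFun f := ∑ i ∈ Finset.range (D + 1), (MvPolynomial.finSuccEquiv L n f).coeff i * (a ^ i * b ^ (D - i))
  map_add' f g := by simp [add_mul, Finset.sum_add_distrib]
  map_smul' r f := by
    simp only [map_smul, coeff_smul, smul_mul_assoc, Finset.smul_sum, RingHom.id_apply]

lemma psi_apply (D : ℕ) (a b : MvPolynomial (Fin n) L) (f : MvPolynomial (Fin (n + 1)) L) :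
    psi n L D a b f = ∑ i ∈ Finset.range (D + 1),
      (MvPolynomial.finSuccEquiv L n f).coeff i * (a ^ i * b ^ (D - i)) := rfl

/-- evaluation of the first variable at `c`. -/
noncomputable def pev (c : L) (f : MvPolynomial (Fin (n + 1)) L) : MvPolynomial (Fin n) L :=
  Polynomial.eval (MvPolynomial.C c) (MvPolynomial.finSuccEquiv L n f)

lemma eval_pev (c : L) (c' : Fin n → L) (f : MvPolynomial (Fin (n + 1)) L) :
    MvPolynomial.eval c' (pev c f) = MvPolynomial.eval (Fin.cons c c') f := by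
  rw [MvPolynomial.eval_eq_eval_mv_eval', pev, Polynomial.eval_map]
  conv_rhs => rw [← MvPolynomial.eval_C (f := c') c]
  rw [Polynomial.eval₂_at_apply]

lemma degreeOf_pev (c : L) (f : MvPolynomial (Fin (n + 1)) L) (i : Fin n) :
    (pev c f).degreeOf i ≤ f.degreeOf i.succ := by
  rw [pev, Polynomial.eval_eq_sum_range]
  refine (MvPolynomial.degreeOf_sum_le _ _ _).trans (Finset.sup_le fun j _ => ?_)
  refine (MvPolynomial.degreeOf_mul_le _ _ _).trans ?_
  rw [← map_pow, MvPolynomial.degreeOf_C, add_zero]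
  exact MvPolynomial.degreeOf_coeff_finSuccEquiv f i j

lemma fse_const {f : MvPolynomial (Fin (n + 1)) L} (h : f.degreeOf 0 = 0) :
    MvPolynomial.finSuccEquiv L n f = Polynomial.C ((MvPolynomial.finSuccEquiv L n f).coeff 0) := by
  apply Polynomial.eq_C_of_natDegree_eq_zero
  rw [MvPolynomial.natDegree_finSuccEquiv, h]

lemma fse_mem {L₀ : Subfield L} {f : MvPolynomial (Fin (n + 1)) L} (hf : ∀ m, f.coeff m ∈ L₀)
    (i : ℕ) : (MvPolynomial.finSuccEquiv L n f).coeff i ∈ S0 L₀ n := by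
  rw [mem_S0]
  intro m
  rw [MvPolynomial.finSuccEquiv_coeff_coeff]
  exact hf _

lemma pev_mem {L₀ : Subfield L} {f : MvPolynomial (Fin (n + 1)) L} (hf : ∀ m, f.coeff m ∈ L₀)
    {c : L} (hc : c ∈ L₀) : pev c f ∈ S0 L₀ n := by
  rw [pev, Polynomial.eval_eq_sum_range]
  exact sum_mem fun i _ => mul_mem (fse_mem hf i) (pow_mem (C_mem hc) _)

/-- the field of fractions of `S0`. -/
lemma exists_subfield (L₀ : Subfield L) (n : ℕ) :
    ∃ L₁ : Subfield (FractionRing (MvPolynomial (Fin n) L)),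
      (∀ f ∈ S0 L₀ n, algebraMap (MvPolynomial (Fin n) L) (FractionRing (MvPolynomial (Fin n) L)) f ∈ L₁) ∧
      ∀ x ∈ L₁, ∃ a ∈ S0 L₀ n, ∃ b ∈ S0 L₀ n, b ≠ 0 ∧
        x = algebraMap (MvPolynomial (Fin n) L) (FractionRing (MvPolynomial (Fin n) L)) a /
          algebraMap (MvPolynomial (Fin n) L) (FractionRing (MvPolynomial (Fin n) L)) b := by
  set K := FractionRing (MvPolynomial (Fin n) L)
  let g : MvPolynomial (Fin n) L₀ →+* K :=
    (algebraMap (MvPolynomial (Fin n) L) K).comp (MvPolynomial.map L₀.subtype)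
  have hm : Function.Injective (MvPolynomial.map (σ := Fin n) L₀.subtype) :=
    MvPolynomial.map_injective _ L₀.subtype_injective
  have hg : Function.Injective g := (IsFractionRing.injective (MvPolynomial (Fin n) L) K).comp hm
  refine ⟨(IsFractionRing.lift (K := FractionRing (MvPolynomial (Fin n) L₀)) hg).fieldRange, ?_, ?_⟩
  · rintro f ⟨f', rfl⟩
    exact ⟨algebraMap _ _ f', by rw [IsFractionRing.lift_algebraMap]; rfl⟩
  · rintro x ⟨y, rfl⟩
    obtain ⟨a, b, hb, rfl⟩ := IsFractionRing.div_surjective (A := MvPolynomial (Fin n) L₀) y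
    refine ⟨_, ⟨a, rfl⟩, _, ⟨b, rfl⟩, ?_, ?_⟩
    · intro h0
      exact nonZeroDivisors.ne_zero hb (hm (by rw [map_zero]; exact h0))
    · rw [map_div₀, IsFractionRing.lift_algebraMap, IsFractionRing.lift_algebraMap]
      rfl

end Pool.Agent.Helper21.FAM
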