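import Pool.Agent.Helper21.FAM.T2
import Pool.Agent.Helper16.FAM.Fibre

/-!
# FAM, T2: the tower, unconditional
-/

namespace Pool.Agent.Helper21.FAM

open Polynomial Pool.Agent.Helper16.FAM

universe u

/-- T2: the tower. -/
theorem tower {k L : Type u} [Field k] [CharZero k] [Field L] [Algebra k L] {t : L}
    (h : IsFF k L t) {s n : ℕ} (F : Fin s → MvPolynomial (Fin n) L)
    (hdeg : ∀ j i, (F j).degreeOf i ≤ 4)
    (hdis : ∀ i j j', (F j).degreeOf i ≠ 0 → (F j').degreeOf i ≠ 0 → j = j') :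
    ∃ p : Fin n → ℤ[X],
      (∀ j, F j ≠ 0 → MvPolynomial.eval (fun i => aeval t (p i)) (F j) ≠ 0) ∧
      ∀ L₀ : Subfield L, t ∈ L₀ → (∀ j m, (F j).coeff m ∈ L₀) →
      ∀ W : Submodule k (MvPolynomial (Fin n) L), W.FG →
        ∃ (ξ : Fin n → L) (ρ : Fin s → L), (∀ i, ξ i ∈ L₀) ∧ (∀ j, ρ j ∈ L₀) ∧
          (∀ j, MvPolynomial.eval ξ (F j) =
            ρ j ^ 2 * MvPolynomial.eval (fun i => aeval t (p i)) (F j)) ∧
          ∀ g ∈ W, g ≠ 0 → MvPolynomial.eval ξ g ≠ 0 :=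
  tower_of (fun h q hq h4 => Pool.Agent.Helper16.FAM.fibre h q hq h4) h F hdeg hdis

end Pool.Agent.Helper21.FAM
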