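import Pool.Agent.Helper21.FAM.Tower

/-!
# Families over a curve: piece T3 (by helper51), with the proved tower
-/

namespace Pool.Agent.Helper21.FAM

open Polynomial Pool.Agent.Helper16.FAM

universe u

/-- The field generated by `t` and finitely many elements algebraic over `k(t)`. -/
lemma isFF_adjoin {k Ω : Type u} [Field k] [Field Ω] [Algebra k Ω] (t : Ω)
    (ht : Transcendental k t) (Θ : Finset Ω)
    (hΘ : ∀ θ ∈ Θ, IsAlgebraic (IntermediateField.adjoin k {t}) θ) :
    IsFF k (IntermediateField.adjoin k (insert t (Θ : Set Ω)))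
      (⟨t, IntermediateField.subset_adjoin k _ (Set.mem_insert t _)⟩ :
        IntermediateField.adjoin k (insert t (Θ : Set Ω))) := by
  set S : Set Ω := insert t (Θ : Set Ω) with hS
  set L := IntermediateField.adjoin k S with hL
  have htL : t ∈ L := IntermediateField.subset_adjoin k _ (Set.mem_insert t _)
  set tL : L := ⟨t, htL⟩ with htLdef
  have hinj : Function.Injective (algebraMap L Ω) := (algebraMap L Ω).injective
  refine ⟨(transcendental_algebraMap_iff (R := k) (a := tL) hinj).mp ht, ?_⟩
  set K := IntermediateField.adjoin k ({tL} : Set L) with hK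
  have hKmap : K.map L.val = IntermediateField.adjoin k {t} := by
    rw [hK, IntermediateField.adjoin_map]
    simp [htLdef]
  -- the elements of `Θ` in `L`
  set T : Set L := {θ : L | (θ : Ω) ∈ Θ} with hT
  have hTfin : T.Finite := by
    have : T = Subtype.val ⁻¹' (Θ : Set Ω) := rfl
    rw [this]
    exact Θ.finite_toSet.preimage (Subtype.val_injective.injOn)
  have halg : ∀ θ ∈ T, IsAlgebraic K θ := by
    intro θ hθ
    have h1 := hΘ _ hθ
    let f : K →+* IntermediateField.adjoin k ({t} : Set Ω) :=
      ((algebraMap L Ω).comp (algebraMap K L)).codRestrict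
        (IntermediateField.adjoin k ({t} : Set Ω)) (by
          intro x
          rw [← hKmap]
          exact ⟨x.1, x.2, rfl⟩)
    have hfs : Function.Surjective f := by
      rintro ⟨y, hy⟩
      have hy' := hy
      rw [← hKmap] at hy'
      obtain ⟨x, hx, hxy⟩ := hy'
      exact ⟨⟨x, hx⟩, Subtype.ext hxy⟩
    exact IsAlgebraic.of_ringHom_of_comp_eq (S := IntermediateField.adjoin k ({t} : Set Ω))
      (B := Ω) (g := algebraMap L Ω) (f := f) h1 hfs hinj (by ext x; rfl)
  have htop : IntermediateField.adjoin K T = ⊤ := by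
    have h1 : (IntermediateField.adjoin K T).restrictScalars k = ⊤ := by
      rw [hK, IntermediateField.adjoin_adjoin_left]
      apply IntermediateField.map_injective L.val
      rw [IntermediateField.adjoin_map, ← AlgHom.fieldRange_eq_map, IntermediateField.fieldRange_val]
      show IntermediateField.adjoin k (L.val '' ({tL} ∪ T)) = IntermediateField.adjoin k S
      congr 1
      ext x
      constructor
      · rintro ⟨y, hy, rfl⟩
        rcases hy with hy | hy
        · rw [Set.mem_singleton_iff.mp hy]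
          exact Set.mem_insert _ _
        · exact Set.mem_insert_of_mem _ hy
      · intro hx
        have hxL : x ∈ L := IntermediateField.subset_adjoin k _ hx
        refine ⟨⟨x, hxL⟩, ?_, rfl⟩
        rcases hx with hx | hx
        · left
          exact Set.mem_singleton_iff.mpr (Subtype.ext hx)
        · right
          exact hx
    rw [← IntermediateField.restrictScalars_eq_top_iff (K := k)]
    exact h1
  have := hTfin.to_subtype
  have hfd : FiniteDimensional K (IntermediateField.adjoin K T) :=
    IntermediateField.finiteDimensional_adjoin fun x hx => (halg x hx).isIntegral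
  rw [htop] at hfd
  exact (IntermediateField.topEquiv (F := K) (E := L)).toLinearEquiv.finiteDimensional

/-- T3: the tower inside a big field. -/
theorem tower_in {k Ω : Type u} [Field k] [CharZero k] [Field Ω] [Algebra k Ω] (t : Ω)
    (ht : Transcendental k t) (Θ : Finset Ω)
    (hΘ : ∀ θ ∈ Θ, IsAlgebraic (IntermediateField.adjoin k {t}) θ)
    {s n : ℕ} (F : Fin s → MvPolynomial (Fin n) Ω)
    (hF : ∀ j m, (F j).coeff m ∈ IntermediateField.adjoin k (insert t (Θ : Set Ω)))
    (hdeg : ∀ j i, (F j).degreeOf i ≤ 4)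
    (hdis : ∀ i j j', (F j).degreeOf i ≠ 0 → (F j').degreeOf i ≠ 0 → j = j') :
    ∃ p : Fin n → ℤ[X], ∀ L₀ : Subfield Ω,
      (∀ a ∈ L₀, a ∈ IntermediateField.adjoin k (insert t (Θ : Set Ω))) → t ∈ L₀ →
      (∀ j m, (F j).coeff m ∈ L₀) →
      ∀ W : Submodule k (MvPolynomial (Fin n) Ω), W.FG →
        (∀ g ∈ W, ∀ m, g.coeff m ∈ IntermediateField.adjoin k (insert t (Θ : Set Ω))) →
        ∃ (ξ : Fin n → Ω) (ρ : Fin s → Ω), (∀ i, ξ i ∈ L₀) ∧ (∀ j, ρ j ∈ L₀) ∧
          (∀ j, MvPolynomial.eval ξ (F j) =
            ρ j ^ 2 * MvPolynomial.eval (fun i => aeval t (p i)) (F j)) ∧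
          ∀ g ∈ W, g ≠ 0 → MvPolynomial.eval ξ g ≠ 0 := by
  have hFF := isFF_adjoin t ht Θ hΘ
  set L := IntermediateField.adjoin k (insert t (Θ : Set Ω)) with hL
  have htL : t ∈ L := IntermediateField.subset_adjoin k _ (Set.mem_insert t _)
  have hinj : Function.Injective (algebraMap L Ω) := (algebraMap L Ω).injective
  have hminj : Function.Injective (MvPolynomial.map (σ := Fin n) (algebraMap L Ω)) :=
    MvPolynomial.map_injective _ hinj
  -- polynomials with coefficients in `L`
  have hlift : ∀ g : MvPolynomial (Fin n) Ω, (∀ m, g.coeff m ∈ L) →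
      ∃ g' : MvPolynomial (Fin n) L, MvPolynomial.map (algebraMap L Ω) g' = g := by
    intro g hg
    refine ⟨∑ m ∈ g.support, MvPolynomial.monomial m ⟨g.coeff m, hg m⟩, ?_⟩
    rw [map_sum]
    conv_rhs => rw [← MvPolynomial.support_sum_monomial_coeff g]
    refine Finset.sum_congr rfl fun m _ => ?_
    rw [MvPolynomial.map_monomial]
    rfl
  have hcoeff : ∀ (g : MvPolynomial (Fin n) L) m,
      (MvPolynomial.map (algebraMap L Ω) g).coeff m = ((g.coeff m : L) : Ω) := by
    intro g m
    rw [MvPolynomial.coeff_map]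
    rfl
  have hdegOf : ∀ (g : MvPolynomial (Fin n) L) i,
      (MvPolynomial.map (algebraMap L Ω) g).degreeOf i = g.degreeOf i := by
    intro g i
    rw [MvPolynomial.degreeOf_eq_sup, MvPolynomial.degreeOf_eq_sup,
      MvPolynomial.support_map_of_injective _ hinj]
  have heval : ∀ (g : MvPolynomial (Fin n) L) (x : Fin n → L),
      MvPolynomial.eval (fun i => (x i : Ω)) (MvPolynomial.map (algebraMap L Ω) g) =
        ((MvPolynomial.eval x g : L) : Ω) := by
    intro g x
    rw [MvPolynomial.eval_map]
    exact (MvPolynomial.eval₂_comp_left (algebraMap L Ω) (RingHom.id L) x g).symm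
  choose F' hF' using fun j => hlift (F j) (hF j)
  obtain ⟨p, -, hp⟩ := tower hFF F' (fun j i => by rw [← hdegOf, hF']; exact hdeg j i)
    (fun i j j' h1 h2 => hdis i j j' (by rw [← hF' j, hdegOf]; exact h1)
      (by rw [← hF' j', hdegOf]; exact h2))
  refine ⟨p, fun L₀ hL₀ htL₀ hFL₀ W hW hWL => ?_⟩
  set φ : MvPolynomial (Fin n) L →ₗ[k] MvPolynomial (Fin n) Ω :=
    (MvPolynomial.mapAlgHom (σ := Fin n) (IsScalarTower.toAlgHom k L Ω)).toLinearMap with hφ
  have hφa : ∀ g, φ g = MvPolynomial.map (algebraMap L Ω) g := fun g => rfl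
  have hφinj : Function.Injective φ := hminj
  have hW' : (W.comap φ).FG := by
    refine Submodule.fg_of_fg_map_injective φ hφinj ?_
    rw [Submodule.map_comap_eq, inf_eq_right.mpr]
    · exact hW
    · intro g hg
      obtain ⟨g', hg'⟩ := hlift g (hWL g hg)
      exact ⟨g', hg'⟩
  obtain ⟨ξ, ρ, hξ, hρ, hev, hne⟩ := hp (L₀.comap (algebraMap L Ω)) htL₀ (by
    intro j m
    show (((F' j).coeff m : L) : Ω) ∈ L₀
    rw [← hcoeff, hF']
    exact hFL₀ j m) _ hW'
  have haev : ∀ i, aeval t (p i) = (((aeval (⟨t, htL⟩ : L) (p i) : L)) : Ω) := fun i =>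
    aeval_algebraMap_apply Ω (⟨t, htL⟩ : L) (p i)
  refine ⟨fun i => (ξ i : Ω), fun j => (ρ j : Ω), hξ, hρ, fun j => ?_, fun g hg hg0 => ?_⟩
  · simp only [haev]
    rw [← hF' j, heval, heval, hev j]
    push_cast
    rfl
  · obtain ⟨g', hg'⟩ := hlift g (hWL g hg)
    have h1 : g' ∈ W.comap φ := by
      show φ g' ∈ W
      rw [hφa, hg']
      exact hg
    have h2 : g' ≠ 0 := by
      rintro rfl
      apply hg0
      rw [← hg', map_zero]
    rw [← hg', heval]
    intro h3
    exact hne g' h1 h2 (hinj (by rw [map_zero]; exact h3))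

end Pool.Agent.Helper21.FAM
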